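import Pool.Agent.H20.S6.Inst
import Pool.Agent.H79.OM.Loops

/-!
# Section 6: the dimension of `Y` is at least `n`
-/

set_option autoImplicit false
set_option linter.unusedSectionVars false

open scoped InnerProductSpace Topology ContDiff
open Set Filter

namespace Pool.Agent.H20.S6

open Pool.Agent.H91.GE Pool.Agent.H59.LV Pool.Agent.H59.Zar Pool.Agent.H59.ND Pool.Agent.H79.OM

variable {E F : Type*} [NormedAddCommGroup E] [InnerProductSpace ℝ E] [FiniteDimensional ℝ E]
  [NormedAddCommGroup F] [InnerProductSpace ℝ F] [FiniteDimensional ℝ F]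
  {S : Set E} {A : E × E → E} {K K₂ : NNReal} {Φ : ℝ → E × E → E × E}
  {c : ℕ} {R : Set ((E × E) × (E × E))}

/-- **Section 6.** If all the good points with `dim Y = m` are transverse and conformal, then
`n ≤ m` (if there is such a point). -/
theorem n_le {n m : ℕ} (g : GFlow F S A K K₂ Φ) (h : RetRel Φ (UT S) c R) (hsec : Secure S)
    (hdim : Module.finrank ℝ E = Module.finrank ℝ F + n)
    (hO : ∀ w ∈ GoodPt (UT S) R, Module.finrank ℝ (Y R w) = m → Trv R w ∧ Conf S R w)
    {w₀ : E × E} (hw₀ : w₀ ∈ GoodPt (UT S) R) (hm : Module.finrank ℝ (Y R w₀) = m) : n ≤ m := by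
  by_contra hlt
  push Not at hlt
  have hdim' : Module.finrank ℝ F ≤ Module.finrank ℝ E := by omega
  have hS : ∀ᶠ w in 𝓝[UT S] w₀, ∀ t, Scal (fun x => ZT S x) R (Φ t w) := by
    have h1 := h.good_open hw₀
    have h2 := hw₀.2
    filter_upwards [h1, h2] with w hw1 hw2 t
    have h3 := h.good_flow hw1 t
    have h4 := h.finrank_flow_Y hw1.1 t
    exact scal_of (hO _ h3 (by rw [h4, hw2, hm])).1 (hO _ h3 (by rw [h4, hw2, hm])).2
  have htr := (hO w₀ hw₀ hm).1
  obtain ⟨C₂, hC₂⟩ := hcov g hdim' h hw₀ hS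
  obtain ⟨C₁, hC₁⟩ := hrig h hw₀.1 htr
  have hP : Module.finrank ℝ (TB R w₀) < n := by
    have h1 : Module.finrank ℝ (TB R w₀) = Module.finrank ℝ (Y R w₀) := finrank_TY htr
    rw [h1, hm]; exact hlt
  exact loops g h hsec hdim hw₀.1 hP ((TB R w₀).orthogonalProjectionOnto) hC₁ hC₂

end Pool.Agent.H20.S6
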