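import Pool.Agent.H20.S6.Near

/-!
# The covering property used in 6.4
-/

set_option autoImplicit false
set_option linter.unusedSectionVars false

open scoped InnerProductSpace Topology ContDiff
open Set Filter

namespace Pool.Agent.H20.S6

open Pool.Agent.H59.LV Pool.Agent.H59.Zar

variable {E : Type*} [NormedAddCommGroup E] [InnerProductSpace ℝ E] [FiniteDimensional ℝ E]
variable {Tan : E → Submodule ℝ E} {Φ : ℝ → E × E → E × E} {U : Set (E × E)} {c : ℕ}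
  {R : Set ((E × E) × (E × E))}

theorem fderiv_slice (hR : RetRel Φ U c R) (s : ℝ) (w : E × E) :
    fderiv ℝ (Φ s) w = (fderiv ℝ (fun x : ℝ × (E × E) => Φ x.1 x.2) (s, w)).comp
      (ContinuousLinearMap.inr ℝ ℝ (E × E)) := by
  have h1 : HasFDerivAt (fun x : ℝ × (E × E) => Φ x.1 x.2)
      (fderiv ℝ (fun x : ℝ × (E × E) => Φ x.1 x.2) (s, w)) (s, w) :=
    (hR.smooth.differentiable (by simp) _).hasFDerivAt
  have h2 : HasFDerivAt (fun w : E × E => ((s, w) : ℝ × (E × E)))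
      (ContinuousLinearMap.inr ℝ ℝ (E × E)) w := hasFDerivAt_prodMk_right s w
  exact (h1.comp w h2).fderiv

theorem continuous_fderiv_flow (hR : RetRel Φ U c R) :
    Continuous (fun x : ℝ × (E × E) => fderiv ℝ (Φ x.1) x.2) := by
  have h1 : Continuous (fun x : ℝ × (E × E) => fderiv ℝ (fun x : ℝ × (E × E) => Φ x.1 x.2) x) :=
    hR.smooth.continuous_fderiv (by simp)
  have h2 : (fun x : ℝ × (E × E) => fderiv ℝ (Φ x.1) x.2) = fun x =>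
      (fderiv ℝ (fun x : ℝ × (E × E) => Φ x.1 x.2) x).comp
        (ContinuousLinearMap.inr ℝ ℝ (E × E)) := funext fun x => fderiv_slice hR x.1 x.2
  rw [h2]
  exact h1.clm_comp continuous_const

theorem exists_bound (hR : RetRel Φ U c R) (w₀ : E × E) :
    ∃ M : ℝ, 1 ≤ M ∧ ∀ s ∈ Icc (0 : ℝ) 1, ∀ w ∈ Metric.closedBall w₀ 1,
      ‖fderiv ℝ (Φ s) w‖ ≤ M := by
  have hc : IsCompact (Icc (0 : ℝ) 1 ×ˢ Metric.closedBall w₀ 1) :=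
    isCompact_Icc.prod (isCompact_closedBall _ _)
  have hcn : ContinuousOn (fun x : ℝ × (E × E) => fderiv ℝ (Φ x.1) x.2)
      (Icc (0 : ℝ) 1 ×ˢ Metric.closedBall w₀ 1) := (continuous_fderiv_flow hR).continuousOn
  obtain ⟨C, hC⟩ := IsCompact.exists_bound_of_continuousOn (E := (E × E) →L[ℝ] (E × E)) hc hcn
  exact ⟨max C 1, le_max_right _ _, fun s hs w hw => (hC (s, w) ⟨hs, hw⟩).trans (le_max_left _ _)⟩

/-- The lower bound (6.2) near `w₀`. -/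
theorem low_near (hG : Geo Tan Φ U) (hR : RetRel Φ U c R) {w₀ : E × E} (hw₀ : w₀ ∈ GoodPt U R)
    (hS : ∀ᶠ w in 𝓝[U] w₀, ∀ t, Scal Tan R (Φ t w)) :
    ∃ C : ℝ, 0 < C ∧ ∃ N ∈ 𝓝 w₀, ∀ w ∈ U, w ∈ N → ∀ T, 1 ≤ T → Φ T w ∈ N → ∀ κ ∈ Y R w,
      ⟪w.2, κ.1⟫_ℝ = 0 → ‖κ.1‖ ≤ C * ‖(fderiv ℝ (Φ T) w ((0 : E), κ.1)).1‖ := by
  have hS0 := hS.self_of_nhdsWithin hw₀.1 0
  rw [hR.zero] at hS0
  have hS1 : ∀ᶠ w in 𝓝[U] w₀, Scal Tan R w := by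
    filter_upwards [hS] with w hw
    have := hw 0
    rwa [hR.zero] at this
  obtain ⟨C, hC1, -, hCev⟩ := unif_tr hR hw₀ hS0.1
  obtain ⟨M, hM1, hM⟩ := exists_bound hR w₀
  have hε : 0 < 1 / (2 * C) := by positivity
  obtain ⟨N, hN, hnear⟩ := near_id hG hR hw₀ hS0.1 hS1 hε
  have hU2 := eventually_nhdsWithin_iff.1 hCev
  have hU3 := eventually_nhdsWithin_iff.1 hS
  have hball : ∀ᶠ w in 𝓝 w₀, w ∈ Metric.closedBall w₀ 1 := Metric.closedBall_mem_nhds _ one_pos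
  refine ⟨2 * (M * C) ^ 2, by positivity, _, ((hU2.and hU3).and hball).and hN, ?_⟩
  rintro w hwU ⟨⟨⟨hw1, hw2⟩, hw3⟩, hwN⟩ T hT ⟨-, hvN⟩ κ hκ hκθ
  by_cases hκ0 : κ = 0
  · rw [hκ0, Prod.fst_zero, norm_zero]; positivity
  have hne : κ.1 ≠ 0 := fun h0 => by
    have h1 := hw2 hwU 0
    rw [hR.zero] at h1
    exact hκ0 (h1.1 κ hκ h0)
  have hpos : 0 < ‖κ.1‖ := norm_pos_iff.2 hne
  have hκn := hw1 hwU κ hκ
  have hb : ∀ s ∈ Icc (0 : ℝ) 1, ‖(fderiv ℝ (Φ s) w κ).1‖ ≤ M * C * ‖κ.1‖ := by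
    intro s hs
    calc ‖(fderiv ℝ (Φ s) w κ).1‖ ≤ ‖fderiv ℝ (Φ s) w κ‖ := norm_fst_le _
      _ ≤ M * ‖κ‖ := (fderiv ℝ (Φ s) w).le_of_opNorm_le (hM s hs w hw3) κ
      _ ≤ M * (C * ‖κ.1‖) := mul_le_mul_of_nonneg_left hκn (by linarith)
      _ = _ := by ring
  have h1 := b_low hG hR hwU (hw2 hwU) hκ hκ0 hκθ hT hb
  have h2 := hnear w hwU hwN T hvN κ hκ hκθ
  have h3 : ‖κ.1‖ / 2 ≤ ‖(fderiv ℝ (Φ T) w κ).1‖ := by
    have h4 : ‖(fderiv ℝ (Φ T) w κ - κ).1‖ ≤ ‖κ.1‖ / 2 := by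
      calc ‖(fderiv ℝ (Φ T) w κ - κ).1‖ ≤ ‖fderiv ℝ (Φ T) w κ - κ‖ := norm_fst_le _
        _ ≤ 1 / (2 * C) * ‖κ‖ := h2
        _ ≤ 1 / (2 * C) * (C * ‖κ.1‖) := mul_le_mul_of_nonneg_left hκn hε.le
        _ = ‖κ.1‖ / 2 := by field_simp
    have h5 : κ.1 = (fderiv ℝ (Φ T) w κ).1 - (fderiv ℝ (Φ T) w κ - κ).1 := by
      rw [Prod.fst_sub]; abel
    have h6 : ‖κ.1‖ ≤ ‖(fderiv ℝ (Φ T) w κ).1‖ + ‖(fderiv ℝ (Φ T) w κ - κ).1‖ := by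
      calc ‖κ.1‖ = ‖(fderiv ℝ (Φ T) w κ).1 - (fderiv ℝ (Φ T) w κ - κ).1‖ := by rw [← h5]
        _ ≤ _ := norm_sub_le _ _
    linarith
  have h7 : ‖κ.1‖ / 2 * ‖κ.1‖ ^ 2 / (M * C * ‖κ.1‖) ^ 2 ≤
      ‖(fderiv ℝ (Φ T) w ((0 : E), κ.1)).1‖ := by
    refine le_trans ?_ h1
    gcongr
  have hMC : 0 < M * C := by positivity
  have h8 : ‖κ.1‖ / 2 * ‖κ.1‖ ^ 2 / (M * C * ‖κ.1‖) ^ 2 = ‖κ.1‖ / (2 * (M * C) ^ 2) := by
    field_simp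
  rw [h8, div_le_iff₀ (by positivity)] at h7
  linarith

theorem finrank_TY {w : E × E} (htr : ∀ a ∈ Y R w, a.1 = 0 → a = 0) :
    Module.finrank ℝ (TY R w) = Module.finrank ℝ (Y R w) := by
  let f : Y R w →ₗ[ℝ] E := (LinearMap.fst ℝ E E).domRestrict (Y R w)
  have hinj : Function.Injective f := by
    rw [← LinearMap.ker_eq_bot, LinearMap.ker_eq_bot']
    intro x hx
    exact Subtype.ext (htr x.1 x.2 hx)
  have h1 := LinearMap.finrank_range_of_inj hinj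
  have h2 : LinearMap.range f = TY R w := by
    ext x
    rw [mem_TY, LinearMap.mem_range]
    constructor
    · rintro ⟨y, rfl⟩; exact ⟨y.1, y.2, rfl⟩
    · rintro ⟨a, ha, rfl⟩; exact ⟨⟨a, ha⟩, rfl⟩
  rw [← h2, h1]

/-- The covering property. -/
theorem cover (hG : Geo Tan Φ U) (hR : RetRel Φ U c R) {w₀ : E × E} (hw₀ : w₀ ∈ GoodPt U R)
    (hS : ∀ᶠ w in 𝓝[U] w₀, ∀ t, Scal Tan R (Φ t w)) :
    ∃ C : ℝ, 0 < C ∧ ∃ N ∈ 𝓝 w₀, ∀ w ∈ U, w ∈ N → ∀ T, 1 ≤ T → Φ T w ∈ N →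
      ∀ η' ∈ TY R (Φ T w), ∃ (α : ℝ) (ξ : E), ξ ∈ Tan w.1 ∧ ⟪w.2, ξ⟫_ℝ = 0 ∧
        α • (Φ T w).2 + (fderiv ℝ (Φ T) w ((0 : E), ξ)).1 = η' ∧
        |α| ≤ C * ‖η'‖ ∧ ‖ξ‖ ≤ C * ‖η'‖ := by
  obtain ⟨C, hC, N, hN, hlow⟩ := low_near hG hR hw₀ hS
  have hU3 := eventually_nhdsWithin_iff.1 hS
  refine ⟨max C 1, by positivity, _, hU3.and hN, ?_⟩
  rintro w hwU ⟨hw2, hwN⟩ T hT ⟨-, hvN⟩ η' hη'
  set v := Φ T w with hv
  have hvU : v ∈ U := hR.flow_mem hwU T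
  have hw2' := hw2 hwU
  have hSw : Scal Tan R w := by
    have := hw2' 0
    rwa [hR.zero] at this
  have hSv : Scal Tan R v := hw2' T
  have hwn : ⟪w.2, w.2⟫_ℝ = 1 := by
    rw [real_inner_self_eq_norm_sq, (hG.tan w hwU).2]; norm_num
  have hvn : ⟪v.2, v.2⟫_ℝ = 1 := by
    rw [real_inner_self_eq_norm_sq, (hG.tan v hvU).2]; norm_num
  -- the linear map
  let ξ' : E →ₗ[ℝ] E := LinearMap.id - (innerₗ E w.2).smulRight w.2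
  have hξ' : ∀ η, ξ' η = η - ⟪w.2, η⟫_ℝ • w.2 := fun η => rfl
  let B : E →ₗ[ℝ] E := (innerₗ E w.2).smulRight v.2 +
    (LinearMap.fst ℝ E E) ∘ₗ (fderiv ℝ (Φ T) w).toLinearMap ∘ₗ (LinearMap.inr ℝ E E) ∘ₗ ξ'
  have hB : ∀ η, B η = ⟪w.2, η⟫_ℝ • v.2 + (fderiv ℝ (Φ T) w ((0 : E), ξ' η)).1 := fun η => rfl
  -- properties of `ξ' η`
  have key : ∀ η ∈ TY R w, ∃ κ ∈ Y R w, κ.1 = ξ' η ∧ ⟪w.2, κ.1⟫_ℝ = 0 := by
    intro η hη
    have h1 : ξ' η ∈ TY R w := by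
      rw [hξ']
      exact Submodule.sub_mem _ hη (Submodule.smul_mem _ _ (X_mem' hG hR hwU))
    obtain ⟨κ, hκ, hκ1⟩ := mem_TY.1 h1
    refine ⟨κ, hκ, hκ1, ?_⟩
    rw [hκ1, hξ', inner_sub_right, inner_smul_right, hwn]; ring
  have hBm : ∀ η ∈ TY R w, B η ∈ TY R v := by
    intro η hη
    obtain ⟨κ, hκ, hκ1, hκθ⟩ := key η hη
    rw [hB, ← hκ1]
    exact Submodule.add_mem _ (Submodule.smul_mem _ _ (X_mem' hG hR hvU))
      (b_mem hG hR hwU hw2' hκ hκθ T)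
  have hBn : ∀ η ∈ TY R w, |⟪w.2, η⟫_ℝ| ≤ ‖B η‖ ∧ ‖ξ' η‖ ≤ C * ‖B η‖ := by
    intro η hη
    obtain ⟨κ, hκ, hκ1, hκθ⟩ := key η hη
    have hκU := hR.Y_le hwU hκ
    have h0U : ((0 : E), κ.1) ∈ ZT U w := hG.vert w hwU _ (hG.ztU w hwU κ hκU).1 hκθ
    have hperp : ⟪v.2, (fderiv ℝ (Φ T) w ((0 : E), κ.1)).1⟫_ℝ = 0 := by
      rw [hv, theta hG hR hwU h0U T, inner_zero_right]
    rw [hB, ← hκ1]
    set z := (fderiv ℝ (Φ T) w ((0 : E), κ.1)).1 with hz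
    set al := ⟪w.2, η⟫_ℝ with hal
    have hsq : ‖al • v.2 + z‖ ^ 2 = al ^ 2 + ‖z‖ ^ 2 := by
      rw [← real_inner_self_eq_norm_sq, inner_add_left, inner_add_right, inner_add_right,
        inner_smul_left, inner_smul_left, inner_smul_right, inner_smul_right, hvn,
        real_inner_comm v.2 z, hperp, real_inner_self_eq_norm_sq]
      simp; ring
    constructor
    · refine abs_le_of_sq_le_sq' ?_ (norm_nonneg _) |> abs_le.2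
      rw [hsq]; nlinarith [sq_nonneg ‖z‖]
    · have h1 : ‖z‖ ≤ ‖al • v.2 + z‖ := by
        refine abs_le_of_sq_le_sq' ?_ (norm_nonneg _) |>.2
        rw [hsq]; nlinarith [sq_nonneg al]
      exact (hlow w hwU hwN T hT hvN κ hκ hκθ).trans (mul_le_mul_of_nonneg_left h1 hC.le)
  let Bt : TY R w →ₗ[ℝ] TY R v := B.restrict hBm
  have hinj : Function.Injective Bt := by
    rw [← LinearMap.ker_eq_bot, LinearMap.ker_eq_bot']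
    intro x hx
    have hx0 : B x.1 = 0 := congrArg Subtype.val hx
    obtain ⟨h1, h2⟩ := hBn x.1 x.2
    rw [hx0, norm_zero] at h1 h2
    have h3 : ⟪w.2, x.1⟫_ℝ = 0 := abs_nonpos_iff.1 h1
    rw [mul_zero] at h2
    have h4 : ξ' x.1 = 0 := norm_le_zero_iff.1 h2
    rw [hξ', h3, zero_smul, sub_zero] at h4
    exact Subtype.ext h4
  have hdim : Module.finrank ℝ (TY R w) = Module.finrank ℝ (TY R v) := by
    rw [finrank_TY hSw.1, finrank_TY hSv.1, hv, hR.finrank_flow_Y hwU]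
  have hsurj : Function.Surjective Bt :=
    (LinearMap.injective_iff_surjective_of_finrank_eq_finrank hdim).1 hinj
  obtain ⟨x, hx⟩ := hsurj ⟨η', hη'⟩
  have hx1 : B x.1 = η' := congrArg Subtype.val hx
  obtain ⟨κ, hκ, hκ1, hκθ⟩ := key x.1 x.2
  obtain ⟨h1, h2⟩ := hBn x.1 x.2
  rw [hx1] at h1 h2
  refine ⟨⟪w.2, x.1⟫_ℝ, ξ' x.1, ?_, ?_, ?_, ?_, ?_⟩
  · rw [← hκ1]; exact (hG.ztU w hwU κ (hR.Y_le hwU hκ)).1
  · rw [← hκ1]; exact hκθ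
  · rw [← hB]; exact hx1
  · exact h1.trans (le_mul_of_one_le_left (norm_nonneg _) (le_max_right _ _))
  · exact h2.trans (mul_le_mul_of_nonneg_right (le_max_left _ _) (norm_nonneg _))

end Pool.Agent.H20.S6
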