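import Pool.Agent.H59.Zar.RelGood
import Pool.Agent.H59.Zar.RelNear
import Pool.Agent.H59.Zar.Rigid
import Pool.Agent.H59.LV.Sympl

/-!
# Geometric facts used in section 6, and the Wronskian identity (6.2)
-/

set_option autoImplicit false
set_option linter.unusedSectionVars false

open scoped InnerProductSpace Topology ContDiff
open Set Filter

namespace Pool.Agent.H20.S6

open Pool.Agent.H59.LV Pool.Agent.H59.Zar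

variable {E : Type*} [NormedAddCommGroup E] [InnerProductSpace ℝ E] [FiniteDimensional ℝ E]

/-- The facts on the geodesic flow `Φ` on the unit tangent bundle `U` used in section 6;
`Tan x` is the tangent space at `x`. -/
structure Geo (Tan : E → Submodule ℝ E) (Φ : ℝ → E × E → E × E) (U : Set (E × E)) : Prop where
  memU : ∀ x v, (x, v) ∈ U → ∀ v' ∈ Tan x, ‖v'‖ = 1 → (x, v') ∈ U
  tan : ∀ w ∈ U, w.2 ∈ Tan w.1 ∧ ‖w.2‖ = 1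
  deriv1 : ∀ w ∈ U, ∀ t, HasDerivAt (fun s => (Φ s w).1) (Φ t w).2 t
  deriv2 : ∀ w ∈ U, ∀ t, ∃ N : E, HasDerivAt (fun s => (Φ s w).2) N t ∧
    ∀ z ∈ Tan (Φ t w).1, ⟪N, z⟫_ℝ = 0
  derivJ : ∀ w ∈ U, ∀ a t, HasDerivAt (fun s => (fderiv ℝ (Φ s) w a).1) (fderiv ℝ (Φ t) w a).2 t
  ztU : ∀ w ∈ U, ∀ a ∈ ZT U w, a.1 ∈ Tan w.1 ∧ ⟪w.2, a.2⟫_ℝ = 0
  vert : ∀ w ∈ U, ∀ ξ ∈ Tan w.1, ⟪w.2, ξ⟫_ℝ = 0 → ((0 : E), ξ) ∈ ZT U w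
  om_inv : ∀ w ∈ U, ∀ a ∈ ZT U w, ∀ b ∈ ZT U w, ∀ t,
    om (fderiv ℝ (Φ t) w a) (fderiv ℝ (Φ t) w b) = om a b

/-- Transverse points at which the second fundamental form of `Y` is scalar. -/
def Scal (Tan : E → Submodule ℝ E) (R : Set ((E × E) × (E × E))) (w : E × E) : Prop :=
  (∀ a ∈ Y R w, a.1 = 0 → a = 0) ∧ ∃ lam : ℝ, ∀ a ∈ Y R w, ⟪w.2, a.1⟫_ℝ = 0 →
    ∀ z ∈ Tan w.1, ⟪a.2, z⟫_ℝ = lam * ⟪a.1, z⟫_ℝ

variable {Tan : E → Submodule ℝ E} {Φ : ℝ → E × E → E × E} {U : Set (E × E)} {c : ℕ}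
  {R : Set ((E × E) × (E × E))}

section

variable (hG : Geo Tan Φ U) (hR : RetRel Φ U c R)

include hG hR

theorem flow_ZT {w a : E × E} (hw : w ∈ U) (ha : a ∈ ZT U w) (t : ℝ) :
    fderiv ℝ (Φ t) w a ∈ ZT U (Φ t w) := (hR.flow_ZTU hw t).2 ha

/-- The contact form is invariant. -/
theorem theta {w a : E × E} (hw : w ∈ U) (ha : a ∈ ZT U w) (t : ℝ) :
    ⟪(Φ t w).2, (fderiv ℝ (Φ t) w a).1⟫_ℝ = ⟪w.2, a.1⟫_ℝ := by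
  have hd : ∀ s, HasDerivAt (fun s => ⟪(Φ s w).2, (fderiv ℝ (Φ s) w a).1⟫_ℝ) 0 s := by
    intro s
    obtain ⟨N, hN, hN0⟩ := hG.deriv2 w hw s
    have h1 := hN.inner ℝ (hG.derivJ w hw a s)
    have h2 := hG.ztU _ (hR.flow_mem hw s) _ (flow_ZT hG hR hw ha s)
    have h3 : ⟪(Φ s w).2, (fderiv ℝ (Φ s) w a).2⟫_ℝ + ⟪N, (fderiv ℝ (Φ s) w a).1⟫_ℝ = 0 := by
      rw [h2.2, hN0 _ h2.1, add_zero]
    rw [h3] at h1
    exact h1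
  have hc := is_const_of_deriv_eq_zero (fun s => (hd s).differentiableAt) (fun s => (hd s).deriv) t 0
  have h0 : fderiv ℝ (Φ 0) w a = a := by
    have : Φ 0 = fun w => w := funext fun w => hR.zero w
    rw [this, fderiv_fun_id]; rfl
  simp only [h0, hR.zero] at hc
  exact hc

/-- (6.2): the derivative of `⟪K, Z⟫ / |K|²`. -/
theorem wron {w κ ζ : E × E} (hw : w ∈ U) (hκ : κ ∈ Y R w) (hκ0 : κ ≠ 0)
    (hκθ : ⟪w.2, κ.1⟫_ℝ = 0) (hζ : ζ ∈ ZT U w) (hS : ∀ t, Scal Tan R (Φ t w)) (t : ℝ) :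
    HasDerivAt (fun s => ⟪(fderiv ℝ (Φ s) w κ).1, (fderiv ℝ (Φ s) w ζ).1⟫_ℝ /
      ‖(fderiv ℝ (Φ s) w κ).1‖ ^ 2) (om κ ζ / ‖(fderiv ℝ (Φ t) w κ).1‖ ^ 2) t ∧
      (fderiv ℝ (Φ t) w κ).1 ≠ 0 := by
  set κt := fderiv ℝ (Φ t) w κ with hκt
  set ζt := fderiv ℝ (Φ t) w ζ with hζt
  have hwt := hR.flow_mem hw t
  have hκY : κt ∈ Y R (Φ t w) := (hR.flow_Y hw t).2 hκ
  have hκU : κ ∈ ZT U w := hR.Y_le hw hκ
  have hθ : ⟪(Φ t w).2, κt.1⟫_ℝ = 0 := by rw [hκt, theta hG hR hw hκU t]; exact hκθ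
  obtain ⟨htr, lam, hlam⟩ := hS t
  have hne : κt.1 ≠ 0 := by
    intro h0
    have h1 : κt = 0 := htr _ hκY h0
    apply hκ0
    have h2 := hR.fderiv_inv t w κ
    rw [← hκt, h1, map_zero] at h2
    exact h2.symm
  refine ⟨?_, hne⟩
  have hκT : κt.1 ∈ Tan (Φ t w).1 := (hG.ztU _ hwt _ (flow_ZT hG hR hw hκU t)).1
  have hζT : ζt.1 ∈ Tan (Φ t w).1 := (hG.ztU _ hwt _ (flow_ZT hG hR hw hζ t)).1
  have hom := hG.om_inv w hw κ hκU ζ hζ t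
  rw [om_apply, ← hκt, ← hζt] at hom
  have e1 : ⟪κt.2, ζt.1⟫_ℝ = lam * ⟪κt.1, ζt.1⟫_ℝ := hlam _ hκY hθ _ hζT
  have e2 : ⟪κt.2, κt.1⟫_ℝ = lam * ⟪κt.1, κt.1⟫_ℝ := hlam _ hκY hθ _ hκT
  have d1 := hG.derivJ w hw κ t
  have d2 := hG.derivJ w hw ζ t
  have f1 := d1.inner ℝ d2
  have f2 := d1.inner ℝ d1
  have hpos : 0 < ‖κt.1‖ ^ 2 := by positivity
  have hden : (fun s => ⟪(fderiv ℝ (Φ s) w κ).1, (fderiv ℝ (Φ s) w κ).1⟫_ℝ)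
      = fun s => ‖(fderiv ℝ (Φ s) w κ).1‖ ^ 2 := by
    funext s; exact real_inner_self_eq_norm_sq _
  rw [hden] at f2
  have f3 := f1.div f2 (by rw [← hκt]; exact hpos.ne')
  rw [← hκt, ← hζt] at f3
  refine f3.congr_deriv ?_
  have e3 : ⟪κt.1, κt.2⟫_ℝ = lam * ‖κt.1‖ ^ 2 := by
    rw [real_inner_comm, e2, real_inner_self_eq_norm_sq]
  have e4 : ⟪κt.2, κt.1⟫_ℝ = lam * ‖κt.1‖ ^ 2 := by
    rw [e2, real_inner_self_eq_norm_sq]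
  have e5 : ⟪κt.1, ζt.2⟫_ℝ = om κ ζ + lam * ⟪κt.1, ζt.1⟫_ℝ := by
    rw [← hom, real_inner_comm κt.2 ζt.1, e1]; ring
  rw [e3, e4, e5, e1]
  field_simp
  ring

end

end Pool.Agent.H20.S6
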