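import Pool.Agent.H20.S6.Cov
import Pool.Agent.H79.OM.Near
import Pool.Agent.H59.Zar.Om

/-!
# The facts `Geo` hold for the geodesic flow; the hypotheses of `loops`
-/

set_option autoImplicit false
set_option linter.unusedSectionVars false

open scoped InnerProductSpace Topology ContDiff
open Set Filter

namespace Pool.Agent.H20.S6

open Pool.Agent.H91.GE Pool.Agent.H59.LV Pool.Agent.H59.Zar Pool.Agent.H59.ND Pool.Agent.H79.OM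

variable {E F : Type*} [NormedAddCommGroup E] [InnerProductSpace ℝ E] [FiniteDimensional ℝ E]
  [NormedAddCommGroup F] [InnerProductSpace ℝ F] [FiniteDimensional ℝ F]
  {S : Set E} {A : E × E → E} {K K₂ : NNReal} {Φ : ℝ → E × E → E × E}
  {c : ℕ} {R : Set ((E × E) × (E × E))}

theorem geo (g : GFlow F S A K K₂ Φ) (hdim : Module.finrank ℝ F ≤ Module.finrank ℝ E) :
    Geo (fun x => ZT S x) Φ (UT S) where
  memU := fun x v hxv _ hv' hn =>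
    ⟨(mem_TS g.sub (fst_mem_TSet (w := (x, v)) hxv.1)).1 hv', hn⟩
  tan := fun _ hw => ⟨snd_mem_TS g.sub hw, hw.2⟩
  deriv1 := fun w _ t =>
    (ContinuousLinearMap.fst ℝ E E).hasFDerivAt.comp_hasDerivAt t (hasDerivAt_flow g w t)
  deriv2 := fun w hw t => ⟨A (Φ t w),
    (ContinuousLinearMap.snd ℝ E E).hasFDerivAt.comp_hasDerivAt t (hasDerivAt_flow g w t),
    fun _ hz => inner_A g (flow_mem_UT g hw t) hz⟩
  derivJ := fun w _ a t =>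
    (ContinuousLinearMap.fst ℝ E E).hasFDerivAt.comp_hasDerivAt t (hasDerivAt_jac g w a t)
  ztU := fun _ hw _ ha => ⟨fst_mem_TS hw ha, inner_snd ha⟩
  vert := fun _ hw _ hξ h0 => (ver_mem_iff g.sub hw).2 ⟨hξ, h0⟩
  om_inv := fun _ hw _ ha _ hb t => om_flowU g hdim hw ha hb t

theorem scal_of {w : E × E} (h1 : Trv R w) (h2 : Conf S R w) : Scal (fun x => ZT S x) R w :=
  ⟨h1, h2⟩

theorem hcov (g : GFlow F S A K K₂ Φ) (hdim : Module.finrank ℝ F ≤ Module.finrank ℝ E)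
    (h : RetRel Φ (UT S) c R) {w₀ : E × E} (hw₀ : w₀ ∈ GoodPt (UT S) R)
    (hS : ∀ᶠ w in 𝓝[UT S] w₀, ∀ t, Scal (fun x => ZT S x) R (Φ t w)) :
    ∃ C₂ : ℝ, ∀ᶠ q in 𝓝[R] (w₀, w₀), ∀ t : ℝ, 1 ≤ t → q.2 = Φ t q.1 → ∀ p : TB R w₀,
      ∃ (α : ℝ) (ξ : E), ξ ∈ ZT S q.1.1 ∧ ⟪q.1.2, ξ⟫_ℝ = 0 ∧
        (TB R w₀).orthogonalProjectionOnto (α • q.2.2 + (fderiv ℝ (Φ t) q.1 ((0 : E), ξ)).1) = p ∧
        |α| ≤ C₂ * ‖p‖ ∧ ‖ξ‖ ≤ C₂ * ‖p‖ := by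
  obtain ⟨C, hC, N, hN, hcover⟩ := cover (geo g hdim) h hw₀ hS
  obtain ⟨C', hC', hproj⟩ := near_proj h hw₀
  refine ⟨C * C', ?_⟩
  have e1 : ∀ᶠ q : (E × E) × (E × E) in 𝓝[R] (w₀, w₀), q ∈ R := self_mem_nhdsWithin
  have e2 : ∀ᶠ q : (E × E) × (E × E) in 𝓝[R] (w₀, w₀), q.1 ∈ N :=
    (continuousAt_fst (p := (w₀, w₀))).tendsto.eventually hN |>.filter_mono nhdsWithin_le_nhds
  have e3 : ∀ᶠ q : (E × E) × (E × E) in 𝓝[R] (w₀, w₀), q.2 ∈ N :=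
    (continuousAt_snd (p := (w₀, w₀))).tendsto.eventually hN |>.filter_mono nhdsWithin_le_nhds
  have e4 : ∀ᶠ q : (E × E) × (E × E) in 𝓝[R] (w₀, w₀), q.2 ∈ UT S → ∀ p : TB R w₀,
      ∃ b ∈ Y R q.2, (TB R w₀).orthogonalProjectionOnto b.1 = p ∧ ‖b‖ ≤ C' * ‖p‖ :=
    (continuousAt_snd (p := (w₀, w₀))).tendsto.eventually (eventually_nhdsWithin_iff.1 hproj)
      |>.filter_mono nhdsWithin_le_nhds
  filter_upwards [e1, e2, e3, e4] with q hq1 hq2 hq3 hq4 t ht hqt p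
  obtain ⟨hU1, hU2⟩ := h.sub q hq1
  obtain ⟨b, hb, hbp, hbn⟩ := hq4 hU2 p
  rw [hqt] at hq3 hb
  obtain ⟨α, ξ, hξ, hξ0, hsum, hα, hξn⟩ := hcover q.1 hU1 hq2 t ht hq3 b.1 (mem_TY.2 ⟨b, hb, rfl⟩)
  have hb1 : ‖b.1‖ ≤ C' * ‖p‖ := (norm_fst_le b).trans hbn
  have hb2 : C * ‖b.1‖ ≤ C * C' * ‖p‖ := by
    rw [mul_assoc]; exact mul_le_mul_of_nonneg_left hb1 hC.le
  refine ⟨α, ξ, hξ, hξ0, ?_,
    hα.trans hb2, hξn.trans hb2⟩
  rw [hqt, hsum, hbp]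

theorem hrig (h : RetRel Φ (UT S) c R) {w₀ : E × E} (hw₀ : w₀ ∈ UT S) (htr : Trv R w₀) :
    ∃ C₁ : ℝ, ∀ᶠ q in 𝓝[R] (w₀, w₀),
      ‖q.2 - q.1‖ ≤ C₁ * ‖(TB R w₀).orthogonalProjectionOnto (q.2.1 - q.1.1)‖ := by
  obtain ⟨C, -, hC⟩ := h.rigid hw₀
    ((TB R w₀).orthogonalProjectionOnto.comp (ContinuousLinearMap.fst ℝ E E)) (fun b hb h0 => by
      refine htr b hb ?_
      have h1 : (TB R w₀).orthogonalProjectionOnto b.1 = 0 := h0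
      have h2 : b.1 ∈ TB R w₀ := mem_TY.2 ⟨b, hb, rfl⟩
      have h3 := Submodule.orthogonalProjectionOnto_mem_subspace_eq_self (K := TB R w₀) ⟨b.1, h2⟩
      rw [h1] at h3
      exact (congrArg Subtype.val h3).symm)
  exact ⟨C, hC⟩

end Pool.Agent.H20.S6
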