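import Pool.Agent.H20.S6.Geo

/-!
# (6.2): the vertical Jacobi fields with initial derivative in `τ`
-/

set_option autoImplicit false
set_option linter.unusedSectionVars false

open scoped InnerProductSpace Topology ContDiff
open Set Filter

namespace Pool.Agent.H20.S6

open Pool.Agent.H59.LV Pool.Agent.H59.Zar

variable {E : Type*} [NormedAddCommGroup E] [InnerProductSpace ℝ E] [FiniteDimensional ℝ E]

/-- The horizontal part of `Y`. -/
noncomputable def TY (R : Set ((E × E) × (E × E))) (w : E × E) : Submodule ℝ E :=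
  (Y R w).map (LinearMap.fst ℝ E E)

omit [FiniteDimensional ℝ E] in
theorem mem_TY {R : Set ((E × E) × (E × E))} {w : E × E} {η : E} :
    η ∈ TY R w ↔ ∃ a ∈ Y R w, a.1 = η := by
  simp [TY, Submodule.mem_map]

variable {Tan : E → Submodule ℝ E} {Φ : ℝ → E × E → E × E} {U : Set (E × E)} {c : ℕ}
  {R : Set ((E × E) × (E × E))}

section

variable (hG : Geo Tan Φ U) (hR : RetRel Φ U c R)

include hG hR

theorem X_mem' {w : E × E} (hw : w ∈ U) : w.2 ∈ TY R w := by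
  obtain ⟨N, hN, -⟩ := hG.deriv2 w hw 0
  have h1 := hG.deriv1 w hw 0
  have h2 : HasDerivAt (fun t => Φ t w) ((Φ 0 w).2, N) 0 := h1.prodMk hN
  have h3 := hR.X_mem hw h2
  refine mem_TY.2 ⟨_, h3, ?_⟩
  show (Φ 0 w).2 = w.2
  rw [hR.zero]

theorem TY_le {w : E × E} (hw : w ∈ U) : TY R w ≤ Tan w.1 := by
  intro η hη
  obtain ⟨a, ha, rfl⟩ := mem_TY.1 hη
  exact (hG.ztU w hw a (hR.Y_le hw ha)).1

theorem back {w a : E × E} (t : ℝ) :
    fderiv ℝ (Φ t) (Φ (-t) w) (fderiv ℝ (Φ (-t)) w a) = a := by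
  have h1 := hR.fderiv_add t (-t) w a
  rw [add_neg_cancel] at h1
  rw [← h1]
  have : Φ 0 = fun w => w := funext fun w => hR.zero w
  rw [this, fderiv_fun_id]; rfl

theorem fd0 (w a : E × E) : fderiv ℝ (Φ 0) w a = a := by
  have : Φ 0 = fun w => w := funext fun w => hR.zero w
  rw [this, fderiv_fun_id]; rfl

/-- `b_T` maps `τ(w)` to `τ(v)`. -/
theorem b_mem {w : E × E} (hw : w ∈ U) (hS : ∀ t, Scal Tan R (Φ t w)) {κ : E × E}
    (hκ : κ ∈ Y R w) (hκθ : ⟪w.2, κ.1⟫_ℝ = 0) (T : ℝ) :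
    (fderiv ℝ (Φ T) w ((0 : E), κ.1)).1 ∈ TY R (Φ T w) := by
  set v := Φ T w with hv
  have hvU : v ∈ U := hR.flow_mem hw T
  have hκU := hR.Y_le hw hκ
  have h0U : ((0 : E), κ.1) ∈ ZT U w := hG.vert w hw _ (hG.ztU w hw κ hκU).1 hκθ
  set z := (fderiv ℝ (Φ T) w ((0 : E), κ.1)).1 with hz
  have hzT : z ∈ Tan v.1 := (hG.ztU _ hvU _ (flow_ZT hG hR hw h0U T)).1
  -- orthogonality
  have key : ∀ ν ∈ Tan v.1, (∀ η ∈ TY R v, ⟪η, ν⟫_ℝ = 0) → ⟪z, ν⟫_ℝ = 0 := by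
    intro ν hν hν0
    have hv2 : ⟪v.2, ν⟫_ℝ = 0 := hν0 _ (X_mem' hG hR hvU)
    have hνU : ((0 : E), ν) ∈ ZT U v := hG.vert v hvU ν hν hv2
    have hback : Φ (-T) v = w := by
      rw [hv, ← hR.add, neg_add_cancel, hR.zero]
    set j := fderiv ℝ (Φ (-T)) v ((0 : E), ν) with hj
    have hjU : j ∈ ZT U w := by
      have := flow_ZT hG hR hvU hνU (-T)
      rwa [hback] at this
    have hfj : fderiv ℝ (Φ T) w j = ((0 : E), ν) := by
      have := back hG hR (w := v) (a := ((0 : E), ν)) T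
      rwa [hback] at this
    have h1 := hG.om_inv w hw _ h0U _ hjU T
    rw [hfj, om_apply, om_apply] at h1
    simp only [inner_zero_left, sub_zero, zero_sub] at h1
    rw [← hz] at h1
    rw [h1, neg_eq_zero]
    by_cases hκ0 : κ = 0
    · simp [hκ0]
    have hom : om κ j = 0 := by
      have h2 := hG.om_inv w hw _ hκU _ hjU T
      rw [hfj] at h2
      rw [← h2, om_apply]
      simp only [inner_zero_left, sub_zero]
      exact hν0 _ (mem_TY.2 ⟨_, (hR.flow_Y hw T).2 hκ, rfl⟩)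
    have hw' := fun t => wron hG hR hw hκ hκ0 hκθ hjU hS t
    have hc := is_const_of_deriv_eq_zero (fun t => (hw' t).1.differentiableAt) (fun t => by
      rw [(hw' t).1.deriv, hom, zero_div]) 0 T
    rw [fd0 hG hR, fd0 hG hR, hfj] at hc
    simp only [inner_zero_right, zero_div] at hc
    have hne : κ.1 ≠ 0 := by
      have := (hw' 0).2
      rwa [fd0 hG hR] at this
    have h3 : ‖κ.1‖ ^ 2 ≠ 0 := by positivity
    rw [div_eq_zero_iff] at hc
    rcases hc with hc | hc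
    · rw [real_inner_comm]; exact hc
    · exact absurd hc h3
  -- decomposition
  set p : E := (TY R v).starProjection z with hp
  have hpm : p ∈ TY R v := Submodule.starProjection_apply_mem _ _
  have hperp : ∀ η ∈ TY R v, ⟪η, z - p⟫_ℝ = 0 := fun η hη =>
    (Submodule.mem_orthogonal _ _).1 (Submodule.sub_starProjection_mem_orthogonal _) η hη
  have h4 := key (z - p) (Submodule.sub_mem _ hzT (TY_le hG hR hvU hpm)) hperp
  have h5 := hperp p hpm
  have h6 : ⟪z - p, z - p⟫_ℝ = 0 := by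
    rw [inner_sub_left, h4, h5, sub_zero]
  have h7 : z = p := sub_eq_zero.1 (inner_self_eq_zero.1 h6)
  rw [h7]; exact hpm

/-- The lower bound for `b_T` on `τ(w)`. -/
theorem b_low {w : E × E} (hw : w ∈ U) (hS : ∀ t, Scal Tan R (Φ t w)) {κ : E × E}
    (hκ : κ ∈ Y R w) (hκ0 : κ ≠ 0) (hκθ : ⟪w.2, κ.1⟫_ℝ = 0) {T M : ℝ} (hT : 1 ≤ T)
    (hb : ∀ s ∈ Icc (0 : ℝ) 1, ‖(fderiv ℝ (Φ s) w κ).1‖ ≤ M) :
    ‖(fderiv ℝ (Φ T) w κ).1‖ * ‖κ.1‖ ^ 2 / M ^ 2 ≤ ‖(fderiv ℝ (Φ T) w ((0 : E), κ.1)).1‖ := by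
  have hκU := hR.Y_le hw hκ
  have h0U : ((0 : E), κ.1) ∈ ZT U w := hG.vert w hw _ (hG.ztU w hw κ hκU).1 hκθ
  set h := fun s : ℝ => ⟪(fderiv ℝ (Φ s) w κ).1, (fderiv ℝ (Φ s) w ((0 : E), κ.1)).1⟫_ℝ /
      ‖(fderiv ℝ (Φ s) w κ).1‖ ^ 2 with hh
  have hom : om κ ((0 : E), κ.1) = ‖κ.1‖ ^ 2 := by
    rw [om_apply]; simp
  have hw' := fun t => wron hG hR hw hκ hκ0 hκθ h0U hS t
  have hd : ∀ t, HasDerivAt h (‖κ.1‖ ^ 2 / ‖(fderiv ℝ (Φ t) w κ).1‖ ^ 2) t := fun t => by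
    have := (hw' t).1
    rwa [hom] at this
  have hpos : ∀ t, 0 < ‖(fderiv ℝ (Φ t) w κ).1‖ := fun t => norm_pos_iff.2 (hw' t).2
  have hmono : Monotone h := by
    refine monotone_of_deriv_nonneg (fun t => (hd t).differentiableAt) fun t => ?_
    rw [(hd t).deriv]
    positivity
  have h00 : h 0 = 0 := by
    simp only [hh, fd0 hG hR]
    simp
  have h1 : ‖κ.1‖ ^ 2 / M ^ 2 ≤ h 1 := by
    have hconv : Convex ℝ (Icc (0 : ℝ) 1) := convex_Icc 0 1
    have hcont : ContinuousOn h (Icc (0 : ℝ) 1) :=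
      fun t _ => (hd t).continuousAt.continuousWithinAt
    have := hconv.mul_sub_le_image_sub_of_le_deriv (f := h) hcont
      (fun t _ => (hd t).differentiableAt.differentiableWithinAt)
      (C := ‖κ.1‖ ^ 2 / M ^ 2) (fun t ht => by
        rw [(hd t).deriv]
        have h2 : ‖(fderiv ℝ (Φ t) w κ).1‖ ^ 2 ≤ M ^ 2 := by
          have := hb t (interior_subset ht)
          exact pow_le_pow_left₀ (norm_nonneg _) this 2
        exact div_le_div_of_nonneg_left (by positivity) (by have := hpos t; positivity) h2)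
      0 (by simp) 1 (by simp) (by norm_num)
    rw [h00] at this
    linarith
  have h2 : ‖κ.1‖ ^ 2 / M ^ 2 ≤ h T := h1.trans (hmono hT)
  set kT := ‖(fderiv ℝ (Φ T) w κ).1‖ with hkT
  set zT := ‖(fderiv ℝ (Φ T) w ((0 : E), κ.1)).1‖ with hzT
  have hk : 0 < kT := hpos T
  have h3 : ⟪(fderiv ℝ (Φ T) w κ).1, (fderiv ℝ (Φ T) w ((0 : E), κ.1)).1⟫_ℝ ≤ kT * zT :=
    real_inner_le_norm _ _
  have h4 : ‖κ.1‖ ^ 2 / M ^ 2 ≤ kT * zT / kT ^ 2 := by
    refine h2.trans ?_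
    show _ / kT ^ 2 ≤ _
    gcongr
  have h5 : kT * zT / kT ^ 2 = zT / kT := by field_simp
  rw [h5, le_div_iff₀ hk] at h4
  calc kT * ‖κ.1‖ ^ 2 / M ^ 2 = ‖κ.1‖ ^ 2 / M ^ 2 * kT := by ring
    _ ≤ zT := h4

end

end Pool.Agent.H20.S6
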