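import Pool.Agent.H20.S6.Low

/-!
# (6.1) and uniform transversality
-/

set_option autoImplicit false
set_option linter.unusedSectionVars false

open scoped InnerProductSpace Topology ContDiff
open Set Filter

namespace Pool.Agent.H20.S6

open Pool.Agent.H59.LV Pool.Agent.H59.Zar

variable {E : Type*} [NormedAddCommGroup E] [InnerProductSpace ℝ E] [FiniteDimensional ℝ E]

omit [FiniteDimensional ℝ E] in
theorem om_le (a b : E × E) : |om a b| ≤ 2 * ‖a‖ * ‖b‖ := by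
  rw [om_apply]
  have h1 : |⟪a.1, b.2⟫_ℝ| ≤ ‖a‖ * ‖b‖ :=
    (abs_real_inner_le_norm _ _).trans
      (mul_le_mul (norm_fst_le a) (norm_snd_le b) (norm_nonneg _) (norm_nonneg _))
  have h2 : |⟪b.1, a.2⟫_ℝ| ≤ ‖b‖ * ‖a‖ :=
    (abs_real_inner_le_norm _ _).trans
      (mul_le_mul (norm_fst_le b) (norm_snd_le a) (norm_nonneg _) (norm_nonneg _))
  calc |⟪a.1, b.2⟫_ℝ - ⟪b.1, a.2⟫_ℝ| ≤ |⟪a.1, b.2⟫_ℝ| + |⟪b.1, a.2⟫_ℝ| := abs_sub _ _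
    _ ≤ 2 * ‖a‖ * ‖b‖ := by linarith

variable {Tan : E → Submodule ℝ E} {Φ : ℝ → E × E → E × E} {U : Set (E × E)} {c : ℕ}
  {R : Set ((E × E) × (E × E))}

omit [FiniteDimensional ℝ E] in
theorem small_near {M L : Type*} [TopologicalSpace M] [NormedAddCommGroup L] {P : M → L} {p : M}
    (h : ContinuousAt P p) {η : ℝ} (hη : 0 < η) : ∀ᶠ q in 𝓝 p, ‖P q - P p‖ < η := by
  have := h.preimage_mem_nhds (Metric.ball_mem_nhds (P p) hη)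
  filter_upwards [this] with q hq
  have h3 : dist (P q) (P p) < η := hq
  rwa [dist_eq_norm] at h3

/-- The flow direction. -/
theorem exists_X (hG : Geo Tan Φ U) (hR : RetRel Φ U c R) {w : E × E} (hw : w ∈ U) :
    ∃ N : E, (w.2, N) ∈ Y R w ∧ ∀ z ∈ Tan w.1, ⟪N, z⟫_ℝ = 0 := by
  obtain ⟨N, hN, hN0⟩ := hG.deriv2 w hw 0
  have h1 := hG.deriv1 w hw 0
  have h2 : HasDerivAt (fun t => Φ t w) ((Φ 0 w).2, N) 0 := h1.prodMk hN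
  have h3 := hR.X_mem hw h2
  rw [hR.zero] at h3 hN0
  exact ⟨N, h3, hN0⟩

/-- `Y` is isotropic at scalar points. -/
theorem isotropic (hG : Geo Tan Φ U) (hR : RetRel Φ U c R) {w : E × E} (hw : w ∈ U)
    (hS : Scal Tan R w) {κ y : E × E} (hκ : κ ∈ Y R w) (hκθ : ⟪w.2, κ.1⟫_ℝ = 0)
    (hy : y ∈ Y R w) : om κ y = 0 := by
  obtain ⟨N, hN, hN0⟩ := exists_X hG hR hw
  obtain ⟨-, lam, hlam⟩ := hS
  have hκT := hG.ztU w hw κ (hR.Y_le hw hκ)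
  have hwT := hG.tan w hw
  set y0 : E × E := y - ⟪w.2, y.1⟫_ℝ • (w.2, N) with hy0
  have hy0Y : y0 ∈ Y R w := Submodule.sub_mem _ hy (Submodule.smul_mem _ _ hN)
  have hy0T := hG.ztU w hw y0 (hR.Y_le hw hy0Y)
  have hy0θ : ⟪w.2, y0.1⟫_ℝ = 0 := by
    have : y0.1 = y.1 - ⟪w.2, y.1⟫_ℝ • w.2 := by rw [hy0]; rfl
    rw [this, inner_sub_right, inner_smul_right, real_inner_self_eq_norm_sq, hwT.2]
    ring
  have h1 : om κ y0 = 0 := by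
    rw [om_apply, real_inner_comm y0.2 κ.1, hlam _ hy0Y hy0θ _ hκT.1,
      real_inner_comm κ.2 y0.1, hlam _ hκ hκθ _ hy0T.1, real_inner_comm κ.1 y0.1]
    ring
  have h2 : om κ (w.2, N) = 0 := by
    rw [om_apply]
    show ⟪κ.1, N⟫_ℝ - ⟪w.2, κ.2⟫_ℝ = 0
    rw [real_inner_comm, hN0 _ hκT.1, hκT.2, sub_zero]
  have h3 : y = y0 + ⟪w.2, y.1⟫_ℝ • (w.2, N) := by rw [hy0]; abel
  rw [h3, map_add, map_smul, h1, h2, smul_zero, add_zero]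

/-- The basic identity of (6.1). -/
theorem om_pair (hG : Geo Tan Φ U) (hR : RetRel Φ U c R) {w : E × E} (hw : w ∈ U)
    (hS : Scal Tan R w) {κ : E × E} (hκ : κ ∈ Y R w) (hκθ : ⟪w.2, κ.1⟫_ℝ = 0) {T : ℝ}
    {a a' : E × E} (ha : (a, a') ∈ ZT R (w, Φ T w)) :
    om (fderiv ℝ (Φ T) w κ) a' = om κ a := by
  have hback : Φ (-T) (Φ T w) = w := by rw [← hR.add, neg_add_cancel, hR.zero]
  set b := fderiv ℝ (Φ (-T)) (Φ T w) a' with hb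
  have hfb : fderiv ℝ (Φ T) w b = a' := by
    have := back hG hR (w := Φ T w) (a := a') T
    rwa [hback] at this
  rw [← hfb] at ha
  obtain ⟨h1, h2⟩ := (hR.mem_graph hw T).1 ha
  have hbU : b ∈ ZT U w := by
    have := Submodule.sub_mem _ h1 (hR.Y_le hw h2)
    simpa using this
  rw [← hfb, hG.om_inv w hw _ (hR.Y_le hw hκ) _ hbU T]
  have h3 := isotropic hG hR hw hS hκ hκθ h2
  rw [map_sub, sub_eq_zero] at h3
  exact h3.symm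

/-- Uniform transversality near a transverse good point. -/
theorem unif_tr (hR : RetRel Φ U c R) {w₀ : E × E} (hw₀ : w₀ ∈ GoodPt U R)
    (htr : ∀ a ∈ Y R w₀, a.1 = 0 → a = 0) :
    ∃ C : ℝ, 1 ≤ C ∧ (∀ κ ∈ Y R w₀, ‖κ‖ ≤ C * ‖κ.1‖) ∧
      ∀ᶠ w in 𝓝[U] w₀, ∀ κ ∈ Y R w, ‖κ‖ ≤ C * ‖κ.1‖ := by
  obtain ⟨Q, ⟨O, hO, hQs⟩, hQ⟩ := hR.exists_projY hw₀
  have hQc : ContinuousAt Q w₀ := (hQs.contDiffAt hO).continuousAt
  have hQ0 := hQ.self_of_nhdsWithin hw₀.1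
  let f : Y R w₀ →ₗ[ℝ] E := (LinearMap.fst ℝ E E).domRestrict (Y R w₀)
  have hker : LinearMap.ker f = ⊥ := by
    rw [LinearMap.ker_eq_bot']
    intro x hx
    exact Subtype.ext (htr x.1 x.2 hx)
  obtain ⟨K, hK0, hK⟩ := f.exists_antilipschitzWith hker
  set C₀ : ℝ := max K 1 with hC₀
  have hC₀1 : 1 ≤ C₀ := le_max_right _ _
  have hb0 : ∀ κ ∈ Y R w₀, ‖κ‖ ≤ C₀ * ‖κ.1‖ := by
    intro κ hκ
    have h1 := hK.le_mul_dist ⟨κ, hκ⟩ 0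
    have h2 : ‖κ‖ ≤ K * ‖κ.1‖ := by
      simpa [f, dist_eq_norm] using h1
    exact h2.trans (mul_le_mul_of_nonneg_right (le_max_left _ _) (norm_nonneg _))
  refine ⟨2 * C₀, by linarith, fun κ hκ => (hb0 κ hκ).trans (by nlinarith [norm_nonneg κ.1]), ?_⟩
  have hε : 0 < 1 / (2 * (C₀ + 1)) := by positivity
  have hev : ∀ᶠ w in 𝓝 w₀, ‖Q w - Q w₀‖ < 1 / (2 * (C₀ + 1)) := by
    have := Metric.tendsto_nhds.1 hQc.tendsto _ hε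
    simpa [dist_eq_norm] using this
  filter_upwards [hQ, hev.filter_mono nhdsWithin_le_nhds] with w hw hwε κ hκ
  have e1 : Q w κ = κ := hw.2 κ hκ
  have e2 : ‖Q w₀ κ - κ‖ ≤ 1 / (2 * (C₀ + 1)) * ‖κ‖ := by
    have : Q w₀ κ - κ = -((Q w - Q w₀) κ) := by
      rw [_root_.sub_apply, e1]; abel
    rw [this, norm_neg]
    exact (Q w - Q w₀).le_of_opNorm_le hwε.le κ
  have e3 := hb0 _ (hQ0.1 κ)
  have e4 : ‖(Q w₀ κ).1‖ ≤ ‖κ.1‖ + 1 / (2 * (C₀ + 1)) * ‖κ‖ := by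
    have h1 : ‖(Q w₀ κ - κ).1‖ ≤ 1 / (2 * (C₀ + 1)) * ‖κ‖ := (norm_fst_le _).trans e2
    have h2 : (Q w₀ κ).1 = κ.1 + (Q w₀ κ - κ).1 := by simp
    rw [h2]
    exact (norm_add_le _ _).trans (by linarith)
  have e5 : ‖κ‖ ≤ ‖Q w₀ κ‖ + 1 / (2 * (C₀ + 1)) * ‖κ‖ := by
    have h2 : κ = Q w₀ κ - (Q w₀ κ - κ) := by abel
    calc ‖κ‖ = ‖Q w₀ κ - (Q w₀ κ - κ)‖ := by rw [← h2]
      _ ≤ ‖Q w₀ κ‖ + ‖Q w₀ κ - κ‖ := norm_sub_le _ _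
      _ ≤ _ := by linarith
  have e6 : (C₀ + 1) * (1 / (2 * (C₀ + 1)) * ‖κ‖) = ‖κ‖ / 2 := by field_simp
  have e7 : C₀ * ‖(Q w₀ κ).1‖ ≤ C₀ * (‖κ.1‖ + 1 / (2 * (C₀ + 1)) * ‖κ‖) :=
    mul_le_mul_of_nonneg_left e4 (by linarith)
  nlinarith

set_option maxHeartbeats 2000000 in
/-- (6.1): the return map is near the identity on `Y` modulo the flow direction. -/
theorem near_id (hG : Geo Tan Φ U) (hR : RetRel Φ U c R) {w₀ : E × E} (hw₀ : w₀ ∈ GoodPt U R)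
    (htr : ∀ a ∈ Y R w₀, a.1 = 0 → a = 0) (hS : ∀ᶠ w in 𝓝[U] w₀, Scal Tan R w) {ε : ℝ}
    (hε : 0 < ε) :
    ∃ N ∈ 𝓝 w₀, ∀ w ∈ U, w ∈ N → ∀ T, Φ T w ∈ N → ∀ κ ∈ Y R w, ⟪w.2, κ.1⟫_ℝ = 0 →
      ‖fderiv ℝ (Φ T) w κ - κ‖ ≤ ε * ‖κ‖ := by
  obtain ⟨C, hC1, hC0, hCev⟩ := unif_tr hR hw₀ htr
  obtain ⟨Q, ⟨O, hO, hQs⟩, hQ⟩ := hR.exists_projY hw₀
  have hQc : ContinuousAt Q w₀ := (hQs.contDiffAt hO).continuousAt
  have hQ0 := hQ.self_of_nhdsWithin hw₀.1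
  obtain ⟨P, ⟨O', hO', hPs⟩, hP⟩ := hR.exists_projR hw₀ 0
  rw [hR.zero] at hO' hP
  have hPc : ContinuousAt P (w₀, w₀) := (hPs.contDiffAt hO').continuousAt
  have hP0 := hP.self_of_nhdsWithin (hR.diag w₀ hw₀.1)
  -- small number
  obtain ⟨η, hη0, hη1, hη2⟩ : ∃ η : ℝ, 0 < η ∧ η ≤ 1 ∧ 20 * C * η ≤ min (ε / 3) (1 / 3) := by
    have hm : 0 < min (ε / 3) (1 / 3) := by positivity
    refine ⟨min 1 (min (ε / 3) (1 / 3) / (20 * C)), by positivity, min_le_left _ _, ?_⟩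
    have : min 1 (min (ε / 3) (1 / 3) / (20 * C)) ≤ min (ε / 3) (1 / 3) / (20 * C) :=
      min_le_right _ _
    calc 20 * C * min 1 (min (ε / 3) (1 / 3) / (20 * C))
        ≤ 20 * C * (min (ε / 3) (1 / 3) / (20 * C)) :=
          mul_le_mul_of_nonneg_left this (by positivity)
      _ = min (ε / 3) (1 / 3) := by field_simp
  have hev1 : ∀ᶠ w in 𝓝 w₀, ‖Q w - Q w₀‖ < η := by
    have := Metric.tendsto_nhds.1 hQc.tendsto _ hη0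
    simpa [dist_eq_norm] using this
  have hev2 : ∀ᶠ q in 𝓝 (w₀, w₀), ‖P q - P (w₀, w₀)‖ < η := by
    exact small_near (L := (E × E) × (E × E) →L[ℝ] (E × E) × (E × E)) hPc hη0
  have hev3 : ∀ᶠ w in 𝓝 w₀, ‖w - w₀‖ < η := by
    have := Metric.ball_mem_nhds w₀ hη0
    filter_upwards [this] with w hw
    simpa [dist_eq_norm] using hw
  have hPev : ∀ᶠ q in 𝓝 (w₀, w₀), q ∈ R → ((∀ a, P q a ∈ ZT R q) ∧ ∀ a ∈ ZT R q, P q a = a) :=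
    eventually_nhdsWithin_iff.1 hP
  have hboth : ∀ᶠ q : (E × E) × (E × E) in 𝓝 (w₀, w₀), (‖P q - P (w₀, w₀)‖ < η ∧
      (q ∈ R → ((∀ a, P q a ∈ ZT R q) ∧ ∀ a ∈ ZT R q, P q a = a))) := hev2.and hPev
  rw [nhds_prod_eq] at hboth
  obtain ⟨N₁, hN₁, N₂, hN₂, hNN⟩ := mem_prod_iff.1 hboth
  have hU1 : ∀ᶠ w in 𝓝 w₀, w ∈ U → ((∀ a, Q w a ∈ Y R w) ∧ ∀ a ∈ Y R w, Q w a = a) :=
    eventually_nhdsWithin_iff.1 hQ
  have hU2 := eventually_nhdsWithin_iff.1 hCev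
  have hU3 := eventually_nhdsWithin_iff.1 hS
  have hN : ∀ᶠ w in 𝓝 w₀, w ∈ N₁ ∧ w ∈ N₂ ∧ ‖Q w - Q w₀‖ < η ∧ ‖w - w₀‖ < η ∧
      (w ∈ U → ((∀ a, Q w a ∈ Y R w) ∧ ∀ a ∈ Y R w, Q w a = a)) ∧ (w ∈ U → Scal Tan R w) := by
    filter_upwards [hN₁, hN₂, hev1, hev3, hU1, hU3] with w a b c d e f
    exact ⟨a, b, c, d, e, f⟩
  refine ⟨_, hN, ?_⟩
  rintro w hwU ⟨hw1, -, hw3, hw4, hw5, hw6⟩ T ⟨-, hv2, hv3, hv4, hv5, -⟩ κ hκ hκθ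
  set v := Φ T w with hv
  have hvU : v ∈ U := hR.flow_mem hwU T
  set κ' := fderiv ℝ (Φ T) w κ with hκ'
  have hκU := hR.Y_le hwU hκ
  have hκ'Y : κ' ∈ Y R v := (hR.flow_Y hwU T).2 hκ
  have hκ'θ : ⟪v.2, κ'.1⟫_ℝ = 0 := by rw [hκ', theta hG hR hwU hκU T]; exact hκθ
  obtain ⟨hPq, hPR⟩ := hNN (show (w, v) ∈ N₁ ×ˢ N₂ from ⟨hw1, hv2⟩)
  obtain ⟨hPR1, -⟩ := hPR (hR.mem_flow hwU T)
  set s := ‖κ‖ + ‖κ'‖ with hs
  have hs0 : 0 ≤ s := by positivity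
  -- the pairing with tangent vectors at `w₀`
  have hpair : ∀ a ∈ ZT U w₀, |om (κ' - κ) a| ≤ 4 * η * s * ‖a‖ := by
    intro a ha
    have h1 : (a, a) ∈ ZT R (w₀, w₀) :=
      (hR.mem_diag hw₀.1).2 ⟨ha, by rw [sub_self]; exact Submodule.zero_mem _⟩
    have h2 : P (w₀, w₀) (a, a) = (a, a) := hP0.2 _ h1
    set b := P (w, v) (a, a) with hb
    have h3 : ‖b - (a, a)‖ ≤ η * ‖a‖ := by
      have : b - (a, a) = (P (w, v) - P (w₀, w₀)) (a, a) := by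
        rw [_root_.sub_apply, h2]
      rw [this]
      have h4 := (P (w, v) - P (w₀, w₀)).le_of_opNorm_le (le_of_lt hPq) (a, a)
      have h5 : ‖((a, a) : (E × E) × (E × E))‖ = ‖a‖ := by
        rw [Prod.norm_def]; exact max_self _
      rwa [h5] at h4
    have h4 : om κ' b.2 = om κ b.1 := by
      have h5 : (b.1, b.2) ∈ ZT R (w, Φ T w) := hPR1 (a, a)
      exact om_pair hG hR hwU (hw6 hwU) hκ hκθ h5
    have h5 : om (κ' - κ) a = -(om κ' (b.2 - a)) + om κ (b.1 - a) := by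
      have m1 : om (κ' - κ) a = om κ' a - om κ a := by rw [map_sub, LinearMap.sub_apply]
      have m2 : om κ' (b.2 - a) = om κ' b.2 - om κ' a := map_sub _ _ _
      have m3 : om κ (b.1 - a) = om κ b.1 - om κ a := map_sub _ _ _
      rw [m1, m2, m3, h4]; ring
    have h6 : ‖b.2 - a‖ ≤ η * ‖a‖ := (norm_snd_le (b - (a, a))).trans h3
    have h7 : ‖b.1 - a‖ ≤ η * ‖a‖ := (norm_fst_le (b - (a, a))).trans h3
    rw [h5]
    have h8 := om_le κ' (b.2 - a)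
    have h9 := om_le κ (b.1 - a)
    have h10 : 2 * ‖κ'‖ * ‖b.2 - a‖ ≤ 2 * ‖κ'‖ * (η * ‖a‖) :=
      mul_le_mul_of_nonneg_left h6 (by positivity)
    have h11 : 2 * ‖κ‖ * ‖b.1 - a‖ ≤ 2 * ‖κ‖ * (η * ‖a‖) :=
      mul_le_mul_of_nonneg_left h7 (by positivity)
    calc |-(om κ' (b.2 - a)) + om κ (b.1 - a)| ≤ |-(om κ' (b.2 - a))| + |om κ (b.1 - a)| :=
          abs_add_le _ _
      _ ≤ 2 * ‖κ'‖ * (η * ‖a‖) + 2 * ‖κ‖ * (η * ‖a‖) := by rw [abs_neg]; linarith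
      _ ≤ 4 * η * s * ‖a‖ := by
          rw [hs]
          nlinarith [mul_nonneg (mul_nonneg hη0.le (norm_nonneg a)) (norm_nonneg κ),
            mul_nonneg (mul_nonneg hη0.le (norm_nonneg a)) (norm_nonneg κ')]
  set δ := Q w₀ (κ' - κ) with hδ
  have hδY : δ ∈ Y R w₀ := hQ0.1 _
  have hδd : ‖δ - (κ' - κ)‖ ≤ η * s := by
    have h1 : δ - (κ' - κ) = -((Q v - Q w₀) κ') + (Q w - Q w₀) κ := by
      rw [_root_.sub_apply, _root_.sub_apply, (hv5 hvU).2 κ' hκ'Y,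
        (hw5 hwU).2 κ hκ, hδ, map_sub]
      abel
    rw [h1]
    calc ‖-((Q v - Q w₀) κ') + (Q w - Q w₀) κ‖ ≤ ‖-((Q v - Q w₀) κ')‖ + ‖(Q w - Q w₀) κ‖ :=
          norm_add_le _ _
      _ ≤ η * ‖κ'‖ + η * ‖κ‖ := by
          rw [norm_neg]
          exact add_le_add ((Q v - Q w₀).le_of_opNorm_le hv3.le κ')
            ((Q w - Q w₀).le_of_opNorm_le hw3.le κ)
      _ = η * s := by rw [hs]; ring
  have hw2n : ‖w₀.2‖ = 1 := (hG.tan w₀ hw₀.1).2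
  have hw2T := (hG.tan w₀ hw₀.1).1
  set θ₀ := ⟪w₀.2, δ.1⟫_ℝ with hθ₀
  have hθb : |θ₀| ≤ 2 * η * s := by
    have h1 : θ₀ = ⟪w₀.2, (δ - (κ' - κ)).1⟫_ℝ + ⟪w₀.2 - v.2, κ'.1⟫_ℝ - ⟪w₀.2 - w.2, κ.1⟫_ℝ := by
      rw [hθ₀, inner_sub_left, inner_sub_left, hκ'θ, hκθ]
      simp only [Prod.fst_sub, inner_sub_right]
      ring
    have h2 : |⟪w₀.2, (δ - (κ' - κ)).1⟫_ℝ| ≤ η * s := by
      refine (abs_real_inner_le_norm _ _).trans ?_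
      rw [hw2n, one_mul]
      exact (norm_fst_le _).trans hδd
    have h3 : |⟪w₀.2 - v.2, κ'.1⟫_ℝ| ≤ η * ‖κ'‖ := by
      refine (abs_real_inner_le_norm _ _).trans ?_
      refine mul_le_mul ?_ (norm_fst_le _) (norm_nonneg _) hη0.le
      rw [norm_sub_rev]
      exact (norm_snd_le (v - w₀)).trans hv4.le
    have h4 : |⟪w₀.2 - w.2, κ.1⟫_ℝ| ≤ η * ‖κ‖ := by
      refine (abs_real_inner_le_norm _ _).trans ?_
      refine mul_le_mul ?_ (norm_fst_le _) (norm_nonneg _) hη0.le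
      rw [norm_sub_rev]
      exact (norm_snd_le (w - w₀)).trans hw4.le
    rw [h1]
    have h5 := abs_sub (⟪w₀.2, (δ - (κ' - κ)).1⟫_ℝ + ⟪w₀.2 - v.2, κ'.1⟫_ℝ) ⟪w₀.2 - w.2, κ.1⟫_ℝ
    have h6 := abs_add_le ⟪w₀.2, (δ - (κ' - κ)).1⟫_ℝ ⟪w₀.2 - v.2, κ'.1⟫_ℝ
    have h7 : η * ‖κ'‖ + η * ‖κ‖ = η * s := by rw [hs]; ring
    linarith
  set ξ := δ.1 - θ₀ • w₀.2 with hξ
  have hδT := hG.ztU w₀ hw₀.1 δ (hR.Y_le hw₀.1 hδY)
  have hξT : ξ ∈ Tan w₀.1 := Submodule.sub_mem _ hδT.1 (Submodule.smul_mem _ _ hw2T)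
  have hξ0 : ⟪w₀.2, ξ⟫_ℝ = 0 := by
    rw [hξ, inner_sub_right, inner_smul_right, real_inner_self_eq_norm_sq, hw2n, ← hθ₀]; ring
  have hξU := hG.vert w₀ hw₀.1 ξ hξT hξ0
  have hξb : ‖ξ‖ ≤ 6 * η * s := by
    have h1 : om δ ((0 : E), ξ) = ‖ξ‖ ^ 2 := by
      rw [om_apply]
      show ⟪δ.1, ξ⟫_ℝ - ⟪(0 : E), δ.2⟫_ℝ = ‖ξ‖ ^ 2
      have h2 : δ.1 = ξ + θ₀ • w₀.2 := by rw [hξ]; abel
      rw [inner_zero_left, sub_zero, h2, inner_add_left, inner_smul_left, hξ0,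
        real_inner_self_eq_norm_sq]
      simp
    have hn : ‖((0 : E), ξ)‖ = ‖ξ‖ := by
      rw [Prod.norm_def]; simp
    have h2 : om δ ((0 : E), ξ) = om (κ' - κ) ((0 : E), ξ) + om (δ - (κ' - κ)) ((0 : E), ξ) := by
      rw [map_sub om δ, LinearMap.sub_apply]; ring
    have h3 := hpair _ hξU
    have h4 := om_le (δ - (κ' - κ)) ((0 : E), ξ)
    rw [hn] at h3 h4
    have h5 : 2 * ‖δ - (κ' - κ)‖ * ‖ξ‖ ≤ 2 * (η * s) * ‖ξ‖ := by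
      have := norm_nonneg ξ
      gcongr
    have h6 : ‖ξ‖ ^ 2 ≤ 6 * η * s * ‖ξ‖ := by
      rw [← h1, h2]
      have h7 := le_abs_self (om (κ' - κ) ((0 : E), ξ))
      have h8 := le_abs_self (om (δ - (κ' - κ)) ((0 : E), ξ))
      nlinarith
    by_contra hcon
    push Not at hcon
    have h7 : 0 < ‖ξ‖ := lt_of_le_of_lt (by positivity) hcon
    nlinarith
  have hδ1 : ‖δ.1‖ ≤ 8 * η * s := by
    have h2 : δ.1 = ξ + θ₀ • w₀.2 := by rw [hξ]; abel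
    rw [h2]
    refine (norm_add_le _ _).trans ?_
    rw [norm_smul, hw2n, mul_one, Real.norm_eq_abs]
    linarith
  have hδn : ‖δ‖ ≤ C * (8 * η * s) := (hC0 δ hδY).trans (mul_le_mul_of_nonneg_left hδ1 (by linarith))
  have hfin : ‖κ' - κ‖ ≤ 10 * C * η * s := by
    have h1 : κ' - κ = δ - (δ - (κ' - κ)) := by abel
    rw [h1]
    refine (norm_sub_le _ _).trans ?_
    have h2 : η * s ≤ 2 * (C * (η * s)) := by nlinarith [mul_nonneg hη0.le hs0]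
    nlinarith
  have hmin1 : min (ε / 3) (1 / 3) ≤ ε / 3 := min_le_left _ _
  have hmin2 : min (ε / 3) (1 / 3) ≤ 1 / 3 := min_le_right _ _
  -- `‖κ'‖ ≤ 2 ‖κ‖`
  have hk' : ‖κ'‖ ≤ ‖κ‖ + ‖κ' - κ‖ := by
    have h1 : κ' = κ + (κ' - κ) := by abel
    calc ‖κ'‖ = ‖κ + (κ' - κ)‖ := by rw [← h1]
      _ ≤ _ := norm_add_le _ _
  have h10 : 10 * C * η * s ≤ (1 / 6) * s := by nlinarith
  have hk2 : ‖κ'‖ ≤ 2 * ‖κ‖ := by
    rw [hs] at h10 hfin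
    nlinarith [norm_nonneg κ, norm_nonneg κ']
  have h11 : 10 * C * η * s ≤ (ε / 6) * s := by nlinarith
  calc ‖κ' - κ‖ ≤ (ε / 6) * s := hfin.trans h11
    _ ≤ (ε / 6) * (3 * ‖κ‖) := by
        have : s ≤ 3 * ‖κ‖ := by rw [hs]; linarith
        exact mul_le_mul_of_nonneg_left this (by positivity)
    _ ≤ ε * ‖κ‖ := by nlinarith [norm_nonneg κ]

end Pool.Agent.H20.S6
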